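import Pool.Agent.H89.MAL.MalMain

/-!
# MP_6540cb_lc: subshifts of finite type closed under a Maltsev operation

For a subshift of finite type `S` of `A^(ℤ^d)` which is closed under the cellwise application of
a Maltsev operation `m` on `A` (`m(x,y,y) = x = m(y,y,x)`; for instance `x y⁻¹ z` in a finite group,
so that all systems of linear equations over finite rings are covered), the three conditions (i),
(ii), (iii) of the problem are equivalent; they are also equivalent to measurability for the fair
coin measure only, and to the existence of a nonempty strongly irreducible subshift inside `S`.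
-/

open MeasureTheory
open Pool.Agent.H62.BS Pool.Agent.H89.MAL

namespace Pool.Agent.Results.MP_6540cb_lc.Maltsev

theorem result {d : ℕ} {A : Type} [Finite A] [TopologicalSpace A] [DiscreteTopology A]
    (m : A → A → A → A) (hm : IsMaltsev m) (S : Set (Conf d A)) (hS : IsSFT S)
    (hcl : Stable m S) :
    [BorelMap S,
      BaireMap S,
      ∀ μ : Measure (FreePart d), IsProbabilityMeasure μ → MeasMap μ S,
      MeasMap (coin d) S,
      ∃ S' ⊆ S, S'.Nonempty ∧ IsSubshift S' ∧ StronglyIrreducible S'].TFAE :=
  maltsev_tfae hS hm hcl

end Pool.Agent.Results.MP_6540cb_lc.Maltsev
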