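import Pool.Agent.H89.MAL.NUMain

/-!
# MP_6540cb_lc: subshifts closed under a near-unanimity operation

For a subshift `S` of `A^(ℤ^d)` (in particular a subshift of finite type) which is closed under the
cellwise application of a near-unanimity operation, the three conditions (i), (ii), (iii) of the
problem are equivalent; they are also equivalent to measurability for the fair coin measure only,
and to the existence of a nonempty strongly irreducible subshift inside `S`.
-/

open MeasureTheory
open Pool.Agent.H62.BS Pool.Agent.H89.MAL

namespace Pool.Agent.Results.MP_6540cb_lc.NearUnanimity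

theorem result {d n : ℕ} {A : Type} [Finite A] [TopologicalSpace A] [DiscreteTopology A]
    (hn : 3 ≤ n) (f : (Fin n → A) → A) (hf : IsNU f) (S : Set (Conf d A)) (hS : IsSubshift S)
    (hcl : StableNU f S) :
    [BorelMap S,
      BaireMap S,
      ∀ μ : Measure (FreePart d), IsProbabilityMeasure μ → MeasMap μ S,
      MeasMap (coin d) S,
      ∃ S' ⊆ S, S'.Nonempty ∧ IsSubshift S' ∧ StronglyIrreducible S'].TFAE :=
  nu_tfae hS hn hf hcl

end Pool.Agent.Results.MP_6540cb_lc.NearUnanimity
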