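import Pool.Agent.H62.BS.Zero
import Pool.Agent.H62.BS.ConstCoin

/-!
MP_6540cb_lc, ZeroEntropy: for subshifts of topological entropy zero the conditions (i), (ii),
(iii) are equivalent, and hold if and only if the subshift contains a constant configuration.
-/

set_option autoImplicit false

open MeasureTheory

namespace Pool.Agent.Results.MP_6540cb_lc.ZeroEntropy

open Pool.Agent.H62.BS

theorem result (d : ℕ) (A : Type) [Finite A] [TopologicalSpace A] [DiscreteTopology A]
    (S : Set (Conf d A)) (h0 : ZeroEntropy S) :
    List.TFAE [BorelMap S, BaireMap S,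
      ∀ μ : Measure (FreePart d), IsProbabilityMeasure μ → MeasMap μ S,
      MeasMap (coin d) S, ∃ a : A, (fun _ => a) ∈ S] := by
  tfae_have 1 → 2 := fun h => h.baireMap
  tfae_have 1 → 3 := fun h μ _ => h.measMap μ
  tfae_have 3 → 4 := fun h => h (coin d) inferInstance
  tfae_have 5 → 1 := fun ⟨_, ha⟩ => borelMap_of_const ha
  tfae_have 2 → 5 := fun h =>
    const_of_zeroEntropy h0 (fun _ hp => residual_all_act hp) (fun F h1 h2 => const_residual F h1 h2)
      h
  tfae_have 4 → 5 := fun h =>
    const_of_zeroEntropy h0 (fun _ hp => ae_coin_all_act hp) (fun F h1 h2 => const_coin F h1 h2) h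
  tfae_finish

end Pool.Agent.Results.MP_6540cb_lc.ZeroEntropy
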